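import Pool.Agent.H143R3.BT.Stmts

/-! Task I: past and future of Brownian motion are independent. -/

set_option autoImplicit false

universe u

namespace Pool.Agent.H405R3.BT

open MeasureTheory ProbabilityTheory Filter Topology
open scoped ENNReal NNReal
open Pool.Agent.H143R3.BT

variable {Ω : Type u} [MeasurableSpace Ω] {P : Measure Ω} {X : ℝ≥0 → Ω → ℝ}

theorem pre (h : IsBM P X) : IsPreBrownianReal X P := by
  refine HasIndepIncrements.isPreBrownianReal_of_hasLaw (fun t => ?_) h.indep
  refine ⟨(h.meas t).aemeasurable, ?_⟩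
  have h1 := h.law 0 t zero_le
  rw [tsub_zero] at h1
  rw [← h1]
  apply Measure.map_congr
  filter_upwards [h.zero] with ω hω
  rw [hω, sub_zero]

theorem bm_shift (h : IsBM P X) (s : ℝ≥0) : IsBM P (fun u ω => shf s (fun t => X t ω) u) where
  meas t := (h.meas (s + t)).sub (h.meas s)
  zero := by
    filter_upwards with ω
    simp [shf]
  cont := by
    filter_upwards [h.cont] with ω hω
    exact (hω.comp (continuous_const.add continuous_id)).sub continuous_const
  indep := ((pre h).shift s).hasIndepIncrements
  law a b hab := by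
    have h1 := h.law (s + a) (s + b) (by gcongr)
    rw [add_tsub_add_eq_tsub_left] at h1
    rw [← h1]
    congr 1
    funext ω
    simp [shf]

theorem indep (h : IsBM P X) (s : ℝ≥0) :
    IndepFun (fun ω => stp s (fun t => X t ω)) (fun ω => shf s (fun t => X t ω)) P := by
  have h1 := ((pre h).indepFun_shift s).symm
  let g : (Set.Iic s → ℝ) → (ℝ≥0 → ℝ) := fun y u => y ⟨min u s, Set.mem_Iic.2 (min_le_right u s)⟩
  have hg : Measurable g := measurable_pi_lambda _ fun u => measurable_pi_apply _
  exact h1.comp hg measurable_id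

theorem taskI : TaskI.{u} := by
  intro Ω _ P _ X h s
  refine ⟨bm_shift h s, fun Φ hΦ => ?_⟩
  have m1 : Measurable (fun ω => stp s (fun t => X t ω)) :=
    measurable_pi_lambda _ fun u => h.meas _
  have m2 : Measurable (fun ω => shf s (fun t => X t ω)) :=
    measurable_pi_lambda _ fun u => (h.meas _).sub (h.meas _)
  have hp := (indepFun_iff_map_prod_eq_prod_map_map m1.aemeasurable m2.aemeasurable).1 (indep h s)
  have : IsProbabilityMeasure (P.map (fun ω => shf s (fun t => X t ω))) :=
    Measure.isProbabilityMeasure_map m2.aemeasurable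
  calc ∫⁻ ω, Φ (stp s (fun t => X t ω), shf s (fun t => X t ω)) ∂P
      = ∫⁻ p, Φ p ∂(P.map fun ω => (stp s (fun t => X t ω), shf s (fun t => X t ω))) := by
        rw [lintegral_map hΦ (m1.prodMk m2)]
    _ = ∫⁻ p, Φ p ∂((P.map fun ω => stp s (fun t => X t ω)).prod
          (P.map fun ω => shf s (fun t => X t ω))) := by rw [hp]
    _ = ∫⁻ x, ∫⁻ y, Φ (x, y) ∂(P.map fun ω => shf s (fun t => X t ω))
          ∂(P.map fun ω => stp s (fun t => X t ω)) := lintegral_prod _ hΦ.aemeasurable
    _ = ∫⁻ ω₁, ∫⁻ y, Φ (stp s (fun t => X t ω₁), y) ∂(P.map fun ω => shf s (fun t => X t ω)) ∂P := by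
        rw [lintegral_map hΦ.lintegral_prod_right' m1]
    _ = _ := by
        refine lintegral_congr fun ω₁ => ?_
        exact lintegral_map (f := fun y => Φ (stp s (fun t => X t ω₁), y))
          (hΦ.comp measurable_prodMk_left) m2

end Pool.Agent.H405R3.BT
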